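import Pool.Agent.H99.FI.Limit.Glue
import Pool.Agent.H99.FI.Inf.Stab
import Pool.Agent.H99.FI.Cost.Window
import Pool.Agent.H99.FI.Cost.Static

/-!
# The invariant proper edge colouring of the `d`-regular tree is a factor of i.i.d.

A full positive answer to Q1 of MP_bdd10f_pr, for every `d ≥ 3`.

The factor map is the limit of a sequence of local repair windows. All edges start cut and the
states (bijections from the edges at a vertex to the colours) are i.i.d. uniform; cut edges are
hit by independent noise, and at a hit the edge is repaired by an exact look-ahead Kempe kernel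
which preserves the uniform law on consistent states. The cost of a repair seen from a vertex is
summable over the scales, and an influence estimate shows that every window is local.
-/

set_option autoImplicit false

namespace Pool.Agent.Results.MP_bdd10f_pr.FactorIID

open MeasureTheory FI

/-- For every `d ≥ 3` and every `d`-regular tree `G`, there is exactly one probability measure `μ`
with the finite dimensional laws of the outward process (from every root), `μ` is carried by the
proper edge colourings, it is `Aut(G)`-invariant, it is the only `Aut(G)`-invariant probability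
measure carried by the proper edge colourings, and `μ` is a factor of i.i.d. -/
theorem result (d : ℕ) (hd : 3 ≤ d) (V : Type) (G : SimpleGraph V) (hG : IsRegTree G d) :
    ∃ μ : Measure (G.edgeSet → Fin d),
      IsProbabilityMeasure μ ∧ (∀ᵐ c ∂μ, Proper G d c) ∧ (∀ γ : G ≃g G, μ.map (actE G d γ) = μ) ∧
      (∀ o, IsMu G d o μ) ∧ (∀ o μ', IsMu G d o μ' → μ' = μ) ∧
      (∀ ν : Measure (G.edgeSet → Fin d), IsProbabilityMeasure ν → (∀ᵐ c ∂ν, Proper G d c) →
        (∀ γ : G ≃g G, ν.map (actE G d γ) = ν) → ν = μ) ∧
      IsFIID G d μ := by
  haveI : NeZero d := ⟨by omega⟩
  exact final_of_windows hd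
    (fun V G hG T P hK p ε B L hL hLB F ω => law_window hd hG T P hK p ε B L hL hLB F ω)
    (stab_window hd) (costWindow_of hd (cost_static hd))
    (fun V P N a b' hN hF ha hb hab x hx ξ => kern_cons hd P N a b' hN hF ha hb hab x hx ξ) G hG

end Pool.Agent.Results.MP_bdd10f_pr.FactorIID
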